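import Pool.Agent.R769.MN.Mat
import Pool.Agent.R890.FF.BF

set_option autoImplicit false
set_option linter.unusedSectionVars false

/-!
# Flows with values in a symmetric set for graphs with matching number at most eight
-/

namespace Pool.Agent.R769.MN

open Finset Pool.Agent.TH362.TF Pool.Agent.R890.FF
open Pool.Agent.TH676.A (Alg FlowOn)
open Pool.Agent.TH497.BF (G Ag inA algAg)

variable {V E : Type} [Fintype V] [DecidableEq V] [Fintype E] [DecidableEq E]
variable {Γ : Type} [AddCommGroup Γ] {A : Γ → Prop}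

/-- flows with allowed values for graphs with matching number at most eight -/
theorem alg_match (hA : Alg A) {val : Fin 10 → Fin 10 → Γ} (hv : Pet A val)
    (h4 : ∃ σ : F →+ Γ, ∀ x, x ≠ 0 → A (σ x)) (s t : E → V)
    (hN : N1 s t univ) (hM : ∀ M : Finset E, IsMat s t M → M.card ≤ 8) :
    FlowOn A s t ∅ ∅ := by
  refine alg_class hA hv h4 (Cl := fun s t => ∀ M : Finset E, IsMat s t M → M.card ≤ 8) ?_ ?_ _
    s t rfl hM hN
  · intro s t π h M hM
    exact h M (hM.of_map π)
  · intro s t h1 h2
    exact match8 s t univ h2 (fun M _ hM => h1 M hM)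

/-- six even subgraphs -/
theorem bf_match (s t : E → V) (hB : Pool.Agent.TH676.A.Br s t ∅ ∅)
    (hM : ∀ M : Finset E, IsMat s t M → M.card ≤ 8) : FlowOn Ag s t ∅ ∅ :=
  alg_match algAg petBF ⟨embBF, emb_A⟩ s t (n1_of_br hB) hM

end Pool.Agent.R769.MN
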