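import Mathlib
import Pool.Agent.H168DD.TB

set_option autoImplicit false

/-!
# Matchings with nine edges in graphs without circuits with three or four edges

A graph with at least 18 vertices and minimum degree at least three without circuits with three or
four edges has a matching with nine edges.
-/

namespace Pool.Agent.R769.MN

open Finset

variable {V : Type} [Fintype V] [DecidableEq V]

section
variable (G : SimpleGraph V) [DecidableRel G.Adj]

/-- the neighbours -/
def Nn (x : V) : Finset V := univ.filter (G.Adj x)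

variable {G}

theorem mem_Nn {x y : V} : y ∈ Nn G x ↔ G.Adj x y := by simp [Nn]

/-- counting around a vertex of a closed set -/
theorem moore (h3 : ∀ x y, G.Adj x y → 3 ≤ (Nn G x).card)
    (tri : ∀ a b c, G.Adj a b → G.Adj b c → G.Adj c a → False)
    (four : ∀ a b c d, a ≠ c → b ≠ d → G.Adj a b → G.Adj b c → G.Adj c d → G.Adj d a → False)
    {A O : Finset V} (hd : Disjoint O A)
    (hcl : ∀ x ∈ O, ∀ y, G.Adj x y → y ∈ O ∨ y ∈ A) {x : V} (hx : x ∈ O) :
    1 + (Nn G x).card + 2 * (Nn G x ∩ O).card ≤ O.card + A.card := by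
  classical
  set W : Finset V := (Nn G x ∩ O).biUnion (fun y => (Nn G y).erase x) with hW
  have hWc : 2 * (Nn G x ∩ O).card ≤ W.card := by
    rw [hW, card_biUnion]
    · have : ∀ y ∈ Nn G x ∩ O, 2 ≤ ((Nn G y).erase x).card := by
        intro y hy
        rw [mem_inter, mem_Nn] at hy
        rw [card_erase_of_mem (mem_Nn.2 hy.1.symm)]
        have := h3 y x hy.1.symm
        omega
      have h := Finset.card_nsmul_le_sum _ _ _ this
      rw [smul_eq_mul] at h
      omega
    · intro y hy z hz hyz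
      rw [mem_coe, mem_inter, mem_Nn] at hy hz
      change Disjoint ((Nn G y).erase x) ((Nn G z).erase x)
      rw [disjoint_left]
      intro w hw hw'
      rw [mem_erase, mem_Nn] at hw hw'
      exact four x y w z (Ne.symm hw.1) hyz hy.1 hw.2 hw'.2.symm hz.1.symm
  have hd1 : Disjoint (Nn G x) W := by
    rw [disjoint_left]
    intro w hw hw'
    rw [hW, mem_biUnion] at hw'
    obtain ⟨y, hy, hw'⟩ := hw'
    rw [mem_inter, mem_Nn] at hy
    rw [mem_erase, mem_Nn] at hw'
    rw [mem_Nn] at hw
    exact tri x y w hy.1 hw'.2 hw.symm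
  have hd2 : x ∉ Nn G x ∪ W := by
    rw [mem_union, not_or]
    refine ⟨fun h => G.irrefl (mem_Nn.1 h), fun h => ?_⟩
    rw [hW, mem_biUnion] at h
    obtain ⟨y, -, h⟩ := h
    exact (mem_erase.1 h).1 rfl
  have hsub : insert x (Nn G x ∪ W) ⊆ O ∪ A := by
    intro w hw
    rw [mem_insert, mem_union, mem_Nn] at hw
    rw [mem_union]
    rcases hw with rfl | hw | hw
    · exact Or.inl hx
    · exact hcl x hx w hw
    · rw [hW, mem_biUnion] at hw
      obtain ⟨y, hy, hw⟩ := hw
      rw [mem_inter] at hy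
      exact hcl y hy.2 w (mem_Nn.1 (mem_erase.1 hw).2)
  have h1 := card_le_card hsub
  rw [card_insert_of_notMem hd2, card_union_of_disjoint hd1, card_union_of_disjoint hd] at h1
  omega

/-- the pairs of neighbours in `A` are different for different vertices -/
theorem pairs (four : ∀ a b c d, a ≠ c → b ≠ d → G.Adj a b → G.Adj b c → G.Adj c d → G.Adj d a →
    False) (A X : Finset V) :
    ∑ x ∈ X, ((Nn G x ∩ A).card).choose 2 ≤ A.card.choose 2 := by
  classical
  have h1 : (X.biUnion (fun x => (Nn G x ∩ A).powersetCard 2)).card =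
      ∑ x ∈ X, ((Nn G x ∩ A).powersetCard 2).card := by
    refine card_biUnion ?_
    intro x _ y _ hxy
    change Disjoint ((Nn G x ∩ A).powersetCard 2) ((Nn G y ∩ A).powersetCard 2)
    rw [disjoint_left]
    intro P hP hP'
    rw [mem_powersetCard] at hP hP'
    obtain ⟨u, v, huv, rfl⟩ := card_eq_two.1 hP.2
    have a1 := mem_Nn.1 (mem_inter.1 (hP.1 (mem_insert_self u _))).1
    have a2 := mem_Nn.1 (mem_inter.1 (hP.1 (mem_insert_of_mem (mem_singleton_self v)))).1
    have a3 := mem_Nn.1 (mem_inter.1 (hP'.1 (mem_insert_self u _))).1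
    have a4 := mem_Nn.1 (mem_inter.1 (hP'.1 (mem_insert_of_mem (mem_singleton_self v)))).1
    exact four x u y v hxy huv a1 a3.symm a4 a2.symm
  have h2 : X.biUnion (fun x => (Nn G x ∩ A).powersetCard 2) ⊆ A.powersetCard 2 := by
    intro P hP
    rw [mem_biUnion] at hP
    obtain ⟨x, -, hP⟩ := hP
    rw [mem_powersetCard] at hP ⊢
    exact ⟨hP.1.trans inter_subset_right, hP.2⟩
  have h3 := card_le_card h2
  rw [h1, card_powersetCard] at h3
  simpa only [card_powersetCard] using h3

theorem ch1 (q : ℕ) : q ≤ q.choose 2 + 1 := by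
  rcases Nat.lt_or_ge q 3 with h | h
  · interval_cases q <;> decide
  · rw [Nat.choose_two_right]
    have : q * 2 ≤ q * (q - 1) := Nat.mul_le_mul_left _ (by omega)
    omega

theorem ch3 {q : ℕ} (h : 3 ≤ q) : 3 ≤ q.choose 2 := by
  rw [Nat.choose_two_right]
  have : 3 * 2 ≤ q * (q - 1) := Nat.mul_le_mul h (by omega)
  omega

/-- the local inequality -/
theorem local_ineq (h3 : ∀ x y, G.Adj x y → 3 ≤ (Nn G x).card)
    (tri : ∀ a b c, G.Adj a b → G.Adj b c → G.Adj c a → False)
    {A O : Finset V} (hd : Disjoint O A) (hne : ∀ x ∈ O, ∃ y, G.Adj x y)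
    (hcl : ∀ x ∈ O, ∀ y, G.Adj x y → y ∈ O ∨ y ∈ A) {c : ℕ} (hc : O.card = 2 * c + 1) :
    6 ≤ 2 * ∑ x ∈ O, ((Nn G x ∩ A).card).choose 2 + 3 * c := by
  classical
  have hsplit : ∀ x ∈ O, 3 ≤ (Nn G x ∩ O).card + (Nn G x ∩ A).card := by
    intro x hx
    obtain ⟨y, hy⟩ := hne x hx
    have h1 : Nn G x ⊆ (Nn G x ∩ O) ∪ (Nn G x ∩ A) := by
      intro w hw
      rw [mem_union, mem_inter, mem_inter]
      rcases hcl x hx w (mem_Nn.1 hw) with h | h
      · exact Or.inl ⟨hw, h⟩
      · exact Or.inr ⟨hw, h⟩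
    have h2 := (card_le_card h1).trans (card_union_le _ _)
    have := h3 x y hy
    omega
  rcases Nat.lt_or_ge c 2 with hc2 | hc2
  · interval_cases c
    · obtain ⟨x, rfl⟩ := card_eq_one.1 hc
      have h1 := hsplit x (mem_singleton_self x)
      have h2 : Nn G x ∩ {x} = ∅ := by
        rw [eq_empty_iff_forall_notMem]
        intro w hw
        rw [mem_inter, mem_singleton, mem_Nn] at hw
        rw [hw.2] at hw
        exact G.irrefl hw.1
      rw [h2, card_empty, Nat.zero_add] at h1
      rw [sum_singleton]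
      have := ch3 h1
      omega
    · obtain ⟨x, y, z, hxy, hxz, hyz, rfl⟩ := card_eq_three.1 hc
      have hx := hsplit x (by simp)
      have hy := hsplit y (by simp)
      have hz := hsplit z (by simp)
      have hp : (Nn G x ∩ {x, y, z}).card + (Nn G y ∩ {x, y, z}).card +
          (Nn G z ∩ {x, y, z}).card ≤ 4 := by
        have e1 : Nn G x ∩ {x, y, z} ⊆ (if G.Adj x y then {y} else ∅) ∪
            (if G.Adj x z then {z} else ∅) := by
          intro w hw
          rw [mem_inter, mem_Nn, mem_insert, mem_insert, mem_singleton] at hw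
          rcases hw with ⟨h, rfl | rfl | rfl⟩
          · exact absurd h (G.irrefl)
          · simp [h]
          · simp [h]
        have e2 : Nn G y ∩ {x, y, z} ⊆ (if G.Adj x y then {x} else ∅) ∪
            (if G.Adj y z then {z} else ∅) := by
          intro w hw
          rw [mem_inter, mem_Nn, mem_insert, mem_insert, mem_singleton] at hw
          rcases hw with ⟨h, rfl | rfl | rfl⟩
          · simp [h.symm]
          · exact absurd h (G.irrefl)
          · simp [h]
        have e3 : Nn G z ∩ {x, y, z} ⊆ (if G.Adj x z then {x} else ∅) ∪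
            (if G.Adj y z then {y} else ∅) := by
          intro w hw
          rw [mem_inter, mem_Nn, mem_insert, mem_insert, mem_singleton] at hw
          rcases hw with ⟨h, rfl | rfl | rfl⟩
          · simp [h.symm]
          · simp [h.symm]
          · exact absurd h (G.irrefl)
        have f1 := (card_le_card e1).trans (card_union_le _ _)
        have f2 := (card_le_card e2).trans (card_union_le _ _)
        have f3 := (card_le_card e3).trans (card_union_le _ _)
        by_cases a1 : G.Adj x y <;> by_cases a2 : G.Adj y z <;> by_cases a3 : G.Adj x z <;>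
          simp only [a1, a2, a3, if_true, if_false, card_singleton, card_empty] at f1 f2 f3 <;>
          first
          | exact absurd (tri x y z a1 a2 a3.symm) id
          | omega
      rw [sum_insert (by simp [hxy, hxz]), sum_insert (by simp [hyz]), sum_singleton]
      have c1 := ch1 (Nn G x ∩ A).card
      have c2 := ch1 (Nn G y ∩ A).card
      have c3 := ch1 (Nn G z ∩ A).card
      omega
  · omega

/-- there is no family of many closed odd sets -/
theorem no_family (h3 : ∀ x y, G.Adj x y → 3 ≤ (Nn G x).card)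
    (tri : ∀ a b c, G.Adj a b → G.Adj b c → G.Adj c a → False)
    (four : ∀ a b c d, a ≠ c → b ≠ d → G.Adj a b → G.Adj b c → G.Adj c d → G.Adj d a → False)
    (A : Finset V) (F : Finset (Finset V)) (hodd : ∀ O ∈ F, Odd O.card)
    (hdisj : ∀ O ∈ F, ∀ O' ∈ F, O ≠ O' → Disjoint O O') (hA : ∀ O ∈ F, Disjoint O A)
    (hne : ∀ O ∈ F, ∀ x ∈ O, ∃ y, G.Adj x y)
    (hcl : ∀ O ∈ F, ∀ x ∈ O, ∀ y, G.Adj x y → y ∈ O ∨ y ∈ A)
    (h1 : A.card + 2 ≤ F.card) (h2 : A.card + ∑ O ∈ F, O.card / 2 ≤ 8) : False := by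
  classical
  have hc : ∀ O ∈ F, O.card = 2 * (O.card / 2) + 1 := by
    intro O hO
    have := hodd O hO
    rw [Nat.odd_iff] at this
    omega
  have hl : ∀ O ∈ F, 6 ≤ 2 * ∑ x ∈ O, ((Nn G x ∩ A).card).choose 2 + 3 * (O.card / 2) :=
    fun O hO => local_ineq h3 tri (hA O hO) (hne O hO) (hcl O hO) (hc O hO)
  have hsum := Finset.card_nsmul_le_sum _ _ _ hl
  rw [smul_eq_mul, sum_add_distrib, ← mul_sum, ← mul_sum] at hsum
  have hU : ∑ O ∈ F, ∑ x ∈ O, ((Nn G x ∩ A).card).choose 2 =
      ∑ x ∈ F.biUnion id, ((Nn G x ∩ A).card).choose 2 := by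
    rw [sum_biUnion]
    · rfl
    · intro O hO O' hO' hne
      exact hdisj O hO O' hO' hne
  rw [hU] at hsum
  have hp := pairs four A (F.biUnion id)
  rw [Nat.choose_two_right] at hp
  -- lower bounds for the sets when `A` is small
  have hbig : ∀ O ∈ F, A.card ≤ 1 → 7 ≤ O.card + 2 * A.card ∧ (A.card = 0 → 10 ≤ O.card) ∧
      (A.card = 1 → 7 ≤ O.card) := by
    intro O hO hA1
    obtain ⟨x, hx⟩ : O.Nonempty := card_pos.1 (by have := hc O hO; omega)
    have hm := moore h3 tri four (hA O hO) (hcl O hO) hx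
    obtain ⟨y, hy⟩ := hne O hO x hx
    have hd := h3 x y hy
    have hs : (Nn G x).card ≤ (Nn G x ∩ O).card + (Nn G x ∩ A).card := by
      have h1 : Nn G x ⊆ (Nn G x ∩ O) ∪ (Nn G x ∩ A) := by
        intro w hw
        rw [mem_union, mem_inter, mem_inter]
        rcases hcl O hO x hx w (mem_Nn.1 hw) with h | h
        · exact Or.inl ⟨hw, h⟩
        · exact Or.inr ⟨hw, h⟩
      exact (card_le_card h1).trans (card_union_le _ _)
    have hq : (Nn G x ∩ A).card ≤ A.card := card_le_card inter_subset_right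
    refine ⟨by omega, fun h => by omega, fun h => by omega⟩
  have ha : A.card ≤ 8 := by omega
  rcases Nat.lt_or_ge A.card 2 with h | h
  · rcases Nat.lt_or_ge A.card 1 with h0 | h0
    · have h0' : A.card = 0 := by omega
      have h5 : ∀ O ∈ F, 5 ≤ O.card / 2 := by
        intro O hO
        have := (hbig O hO (by omega)).2.1 h0'
        omega
      have := Finset.card_nsmul_le_sum _ _ _ h5
      rw [smul_eq_mul] at this
      omega
    · have h0' : A.card = 1 := by omega
      have h5 : ∀ O ∈ F, 3 ≤ O.card / 2 := by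
        intro O hO
        have := (hbig O hO (by omega)).2.2 h0'
        omega
      have := Finset.card_nsmul_le_sum _ _ _ h5
      rw [smul_eq_mul] at this
      omega
  · generalize A.card = a at *
    generalize ∑ x ∈ F.biUnion id, ((Nn G x ∩ A).card).choose 2 = w at *
    generalize ∑ O ∈ F, O.card / 2 = z at *
    interval_cases a <;> omega

/-- **a matching with nine edges** -/
theorem big_matching (T : Finset V) (hT : ∀ x, x ∈ T ↔ ∃ y, G.Adj x y)
    (h3 : ∀ x y, G.Adj x y → 3 ≤ (Nn G x).card)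
    (tri : ∀ a b c, G.Adj a b → G.Adj b c → G.Adj c a → False)
    (four : ∀ a b c d, a ≠ c → b ≠ d → G.Adj a b → G.Adj b c → G.Adj c d → G.Adj d a → False)
    (h18 : 18 ≤ T.card) :
    ∃ (U : Finset V) (m : V → V), U ⊆ T ∧ U.card ≤ T.card - 18 ∧
      ∀ x ∈ T \ U, m x ∈ T \ U ∧ m (m x) = x ∧ G.Adj x (m x) := by
  classical
  refine H168DD.tutte_berge G T (T.card - 18) ⟨T.card - 9, by omega⟩ ?_
  intro A F hAT hodd hdisj hsub hcl
  by_contra hlt
  push Not at hlt
  have hTA : ∀ O ∈ F, Disjoint O A := by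
    intro O hO
    rw [disjoint_left]
    intro x hx hx'
    exact (mem_sdiff.1 (hsub O hO hx)).2 hx'
  have hcl' : ∀ O ∈ F, ∀ x ∈ O, ∀ y, G.Adj x y → y ∈ O ∨ y ∈ A := fun O hO x hx y hy =>
    hcl O hO x hx y ((hT y).2 ⟨x, hy.symm⟩) hy
  have hne : ∀ O ∈ F, ∀ x ∈ O, ∃ y, G.Adj x y := fun O hO x hx =>
    (hT x).1 (mem_sdiff.1 (hsub O hO hx)).1
  set B := F.biUnion id with hB
  have hBc : B.card = ∑ O ∈ F, O.card := by
    rw [hB, card_biUnion]
    · rfl
    · intro O hO O' hO' h
      exact hdisj O hO O' hO' h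
  have hc : ∀ O ∈ F, O.card = 2 * (O.card / 2) + 1 := by
    intro O hO
    have := hodd O hO
    rw [Nat.odd_iff] at this
    omega
  have hBc2 : B.card = 2 * (∑ O ∈ F, O.card / 2) + F.card := by
    rw [hBc, sum_congr rfl hc, sum_add_distrib, ← mul_sum, sum_const, smul_eq_mul, mul_one]
  have hBT : B ⊆ T \ A := by
    intro x hx
    rw [hB, mem_biUnion] at hx
    obtain ⟨O, hO, hx⟩ := hx
    exact hsub O hO hx
  set R := (T \ A) \ B with hR
  have hRc : R.card + B.card + A.card = T.card := by
    have h1 : R.card + B.card = (T \ A).card := card_sdiff_add_card_eq_card hBT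
    have h2 : (T \ A).card + A.card = T.card := card_sdiff_add_card_eq_card hAT
    omega
  have hRcl : ∀ x ∈ R, ∀ y, G.Adj x y → y ∈ R ∨ y ∈ A := by
    intro x hx y hxy
    by_cases hyA : y ∈ A
    · exact Or.inr hyA
    left
    have hyT : y ∈ T := (hT y).2 ⟨x, hxy.symm⟩
    rw [hR, mem_sdiff, mem_sdiff]
    refine ⟨⟨hyT, hyA⟩, fun hyB => ?_⟩
    rw [hB, mem_biUnion] at hyB
    obtain ⟨O, hO, hyO⟩ := hyB
    rw [hR, mem_sdiff, mem_sdiff] at hx
    rcases hcl' O hO y hyO x hxy.symm with h | h
    · exact hx.2 (mem_biUnion.2 ⟨O, hO, h⟩)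
    · exact hx.1.2 h
  rcases Nat.even_or_odd R.card with hev | hod
  · refine no_family h3 tri four A F hodd hdisj hTA hne hcl' ?_ ?_
    · obtain ⟨k, hk⟩ := hev
      omega
    · omega
  · have hRF : R ∉ F := by
      intro h
      obtain ⟨x, hx⟩ : R.Nonempty := card_pos.1 (by obtain ⟨k, hk⟩ := hod; omega)
      have hx' : x ∉ B := by
        rw [hR, mem_sdiff] at hx
        exact hx.2
      exact hx' (mem_biUnion.2 ⟨R, h, hx⟩)
    have hRd : ∀ O ∈ F, Disjoint R O := by
      intro O hO
      rw [disjoint_left]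
      intro x hx hx'
      rw [hR, mem_sdiff] at hx
      exact hx.2 (mem_biUnion.2 ⟨O, hO, hx'⟩)
    have hRA : Disjoint R A := by
      rw [disjoint_left]
      intro x hx hx'
      rw [hR, mem_sdiff, mem_sdiff] at hx
      exact hx.1.2 hx'
    refine no_family h3 tri four A (insert R F) ?_ ?_ ?_ ?_ ?_ ?_ ?_
    · intro O hO
      rcases mem_insert.1 hO with rfl | hO
      · exact hod
      · exact hodd O hO
    · intro O hO O' hO' h
      rcases mem_insert.1 hO with rfl | hO <;> rcases mem_insert.1 hO' with rfl | hO'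
      · exact absurd rfl h
      · exact hRd O' hO'
      · exact (hRd O hO).symm
      · exact hdisj O hO O' hO' h
    · intro O hO
      rcases mem_insert.1 hO with rfl | hO
      · exact hRA
      · exact hTA O hO
    · intro O hO x hx
      rcases mem_insert.1 hO with rfl | hO
      · rw [hR, mem_sdiff, mem_sdiff] at hx
        exact (hT x).1 hx.1.1
      · exact hne O hO x hx
    · intro O hO
      rcases mem_insert.1 hO with rfl | hO
      · exact hRcl
      · exact hcl' O hO
    · rw [card_insert_of_notMem hRF]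
      obtain ⟨k, hk⟩ := hod
      omega
    · rw [sum_insert hRF]
      obtain ⟨k, hk⟩ := hod
      omega

end

end Pool.Agent.R769.MN
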