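import Pool.Agent.R769.MN.Comb
import Pool.Agent.R890.FF.Min

set_option autoImplicit false
set_option linter.unusedSectionVars false

/-!
# Graphs with matching number at most eight

A graph without isthmus in which nine edges are never pairwise disjoint has a nowhere-zero flow over
the group of order four, or a component which can be contracted to the Petersen graph.
-/

namespace Pool.Agent.R769.MN

open Finset Pool.Agent.TH362.TF Pool.Agent.TH362.TF.Four Pool.Agent.R890.FF

variable {V E : Type} [Fintype V] [DecidableEq V] [DecidableEq E]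

/-- `M` is a matching: the edges are not loops and no two of them have a common end -/
def IsMat (s t : E → V) (M : Finset E) : Prop :=
  (∀ e ∈ M, s e ≠ t e) ∧ ∀ e ∈ M, ∀ e' ∈ M, e ≠ e' →
    s e ≠ s e' ∧ s e ≠ t e' ∧ t e ≠ s e' ∧ t e ≠ t e'

theorem IsMat.of_map {s t : E → V} (π : V → V) {M : Finset E}
    (h : IsMat (fun e => π (s e)) (fun e => π (t e)) M) : IsMat s t M :=
  ⟨fun e he h' => h.1 e he (congrArg π h'), fun e he e' he' hne =>
    have := h.2 e he e' he' hne
    ⟨fun h' => this.1 (congrArg π h'), fun h' => this.2.1 (congrArg π h'),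
      fun h' => this.2.2.1 (congrArg π h'), fun h' => this.2.2.2 (congrArg π h')⟩⟩

/-- a minimal quotient has a matching with nine edges -/
theorem Mq.mat9 {s t : E → V} {S : Finset E} (h : Mq s t S) :
    ∃ M ⊆ S, IsMat s t M ∧ 9 ≤ M.card := by
  classical
  let G : SimpleGraph V :=
    { Adj := Nb s t S
      symm := ⟨fun _ _ h => nb_comm h⟩
      loopless := ⟨fun _ h => h.1 rfl⟩ }
  have hNn : ∀ x, Nn G x = univ.filter (Nb s t S x) := fun x => rfl
  set T : Finset V := univ.filter (fun x => ∃ y, Nb s t S x y) with hT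
  have h3 : ∀ x y, G.Adj x y → 3 ≤ (Nn G x).card := by
    intro x y hxy
    have h0 : 0 < (Nn G x).card := card_pos.2 ⟨y, mem_Nn.2 hxy⟩
    have h1 : (Nn G x).card ≠ 1 := h.nb_ne_one x
    have h2 : (Nn G x).card ≠ 2 := h.nb_ne_two x
    omega
  have h18 : 18 ≤ T.card := by
    refine h.odd18.trans (card_le_card ?_)
    intro y hy
    rw [h.odd_nb y] at hy
    have h0 : 0 < (univ.filter (Nb s t S y)).card := by omega
    obtain ⟨z, hz⟩ := card_pos.1 h0
    exact mem_filter.2 ⟨mem_univ _, z, (mem_filter.1 hz).2⟩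
  obtain ⟨U, m, hUT, hU, hm⟩ := big_matching (G := G) T (fun x => by simp [hT, G]) h3
    (fun a b c h1 h2 h3 => h.tri h1 h2 h3) (fun a b c d hac hbd h1 h2 h3 h4 =>
      h.four hac hbd h1 h2 h3 h4) h18
  -- one vertex of each edge
  let ι := Fintype.equivFin V
  set P := (T \ U).filter (fun x => ι x < ι (m x)) with hP
  have hcov : T \ U ⊆ P ∪ P.image m := by
    intro x hx
    obtain ⟨h1, h2, h3⟩ := hm x hx
    rcases lt_trichotomy (ι x) (ι (m x)) with h | h | h
    · exact mem_union_left _ (mem_filter.2 ⟨hx, h⟩)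
    · exact absurd (ι.injective h) h3.ne
    · apply mem_union_right
      refine mem_image.2 ⟨m x, mem_filter.2 ⟨h1, ?_⟩, h2⟩
      rw [h2]
      exact h
  have hPc : 9 ≤ P.card := by
    have h1 := card_le_card hcov
    have h2 := card_union_le P (P.image m)
    have h3 : (P.image m).card ≤ P.card := card_image_le
    have h4 := card_sdiff_add_card_eq_card hUT
    omega
  have hex : ∀ x, ∃ e, x ∈ P → e ∈ S ∧ Ends s t x (m x) e := by
    intro x
    by_cases hx : x ∈ P
    · obtain ⟨-, e, he, hE⟩ := (hm x (mem_filter.1 hx).1).2.2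
      exact ⟨e, fun _ => ⟨he, hE⟩⟩
    · by_cases hE : Nonempty E
      · exact ⟨hE.some, fun h => absurd h hx⟩
      · exfalso
        obtain ⟨y, hy⟩ := card_pos.1 (by omega : 0 < P.card)
        obtain ⟨-, e, -, -⟩ := (hm y (mem_filter.1 hy).1).2.2
        exact hE ⟨e⟩
  choose ed hed using hex
  have hPm : ∀ x ∈ P, m (m x) = x ∧ x ≠ m x ∧ ι x < ι (m x) := fun x hx =>
    ⟨(hm x (mem_filter.1 hx).1).2.1, (hm x (mem_filter.1 hx).1).2.2.ne, (mem_filter.1 hx).2⟩
  have hdis : ∀ x ∈ P, ∀ y ∈ P, x ≠ y → x ≠ m y ∧ m x ≠ m y := by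
    intro x hx y hy hxy
    refine ⟨fun h => ?_, fun h => hxy ?_⟩
    · have h1 := (hPm x hx).2.2
      have h2 := (hPm y hy).2.2
      rw [h, (hPm y hy).1] at h1
      exact absurd (lt_trans h1 h2) (lt_irrefl _)
    · rw [← (hPm x hx).1, h, (hPm y hy).1]
  have hend : ∀ x ∈ P, (s (ed x) = x ∧ t (ed x) = m x) ∨ (s (ed x) = m x ∧ t (ed x) = x) :=
    fun x hx => (hed x hx).2
  have hinj : ∀ x ∈ P, ∀ y ∈ P, ed x = ed y → x = y := by
    intro x hx y hy hxy
    by_contra hne
    have hd := hdis x hx y hy hne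
    have hd' := hdis y hy x hx (Ne.symm hne)
    have h1 := hend x hx
    have h2 := hend y hy
    rw [hxy] at h1
    rcases h1 with ⟨a, b⟩ | ⟨a, b⟩ <;> rcases h2 with ⟨c, d⟩ | ⟨c, d⟩
    · exact hne (a.symm.trans c)
    · exact hd.1 (a.symm.trans c)
    · exact hd'.1 (c.symm.trans a)
    · exact hd.2 (a.symm.trans c)
  refine ⟨P.image ed, ?_, ⟨?_, ?_⟩, ?_⟩
  · intro e he
    obtain ⟨x, hx, rfl⟩ := mem_image.1 he
    exact (hed x hx).1
  · intro e he
    obtain ⟨x, hx, rfl⟩ := mem_image.1 he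
    rcases hend x hx with ⟨a, b⟩ | ⟨a, b⟩
    · rw [a, b]; exact (hPm x hx).2.1
    · rw [a, b]; exact (hPm x hx).2.1.symm
  · intro e he e' he' hne
    obtain ⟨x, hx, rfl⟩ := mem_image.1 he
    obtain ⟨y, hy, rfl⟩ := mem_image.1 he'
    have hxy : x ≠ y := fun h => hne (by rw [h])
    have hd := hdis x hx y hy hxy
    have hd' := hdis y hy x hx hxy.symm
    rcases hend x hx with ⟨a, b⟩ | ⟨a, b⟩ <;> rcases hend y hy with ⟨c, d⟩ | ⟨c, d⟩ <;>
      rw [a, b, c, d]
    · exact ⟨hxy, hd.1, hd'.1.symm, hd.2⟩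
    · exact ⟨hd.1, hxy, hd.2, hd'.1.symm⟩
    · exact ⟨hd'.1.symm, hd.2, hxy, hd.1⟩
    · exact ⟨hd.2, hd'.1.symm, hd.1, hxy⟩
  · rw [card_image_of_injOn (fun x hx y hy h => hinj x hx y hy h)]
    exact hPc

/-- **matching number at most eight** -/
theorem match8 (s t : E → V) (S : Finset E) (h1 : N1 s t S)
    (hM : ∀ M ⊆ S, IsMat s t M → M.card ≤ 8) : NZ s t S ∨ PQ s t S := by
  by_contra hc
  rw [not_or] at hc
  obtain ⟨π, hq⟩ := exists_Mq s t S h1 hc.1 hc.2
  obtain ⟨M, hMS, hMm, hM9⟩ := Mq.mat9 hq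
  have := hM M hMS (hMm.of_map π)
  omega

end Pool.Agent.R769.MN
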