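import Pool.Agent.R890.FF.Alg
import Pool.Agent.R926.SC.PetFin
import Pool.Agent.R769.MN.Mat

set_option autoImplicit false
set_option linter.unusedSectionVars false

/-!
# Petersen colourings as flows with values in a symmetric set

The group is the group of all functions from the set of flows over `Z/2` of the Petersen graph to
`Z/2`; the edge `e` corresponds to the evaluation at `e`.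
-/

namespace Pool.Agent.R769.MN

open Finset Pool.Agent.TH362.TF Pool.Agent.R890.FF
open Pool.Agent.TH676.A (Alg Ex2 FlowOn bd)
open Pool.Agent.R926.SC (pe)

/-- the flows over `Z/2` of the Petersen graph -/
def St (φ : Fin 15 → ZMod 2) : Prop := ∀ k, φ (pe k 0) + φ (pe k 1) + φ (pe k 2) = 0

/-- the type of the flows -/
def PF : Type := {φ : Fin 15 → ZMod 2 // St φ}

/-- evaluation at an edge -/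
def hat (e : Fin 15) : PF → ZMod 2 := fun φ => φ.1 e

/-- the allowed values -/
def Ap (x : PF → ZMod 2) : Prop := ∃ e, x = hat e

/-- `(a, b, c)` is a permutation of `(x, y, z)` -/
def P3 (a b c x y z : Fin 15) : Prop :=
  (a = x ∧ b = y ∧ c = z) ∨ (a = x ∧ b = z ∧ c = y) ∨ (a = y ∧ b = x ∧ c = z) ∨
    (a = y ∧ b = z ∧ c = x) ∨ (a = z ∧ b = x ∧ c = y) ∨ (a = z ∧ b = y ∧ c = x)

instance (a b c x y z : Fin 15) : Decidable (P3 a b c x y z) := by unfold P3; infer_instance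

/-- `ρ` maps the star of `x` to the star of `κ x` -/
def IsA (ρ : Fin 15 → Fin 15) (κ : Fin 10 → Fin 10) : Prop :=
  ∀ x, P3 (ρ (pe x 0)) (ρ (pe x 1)) (ρ (pe x 2)) (pe (κ x) 0) (pe (κ x) 1) (pe (κ x) 2)

instance (ρ : Fin 15 → Fin 15) (κ : Fin 10 → Fin 10) : Decidable (IsA ρ κ) := by
  unfold IsA; infer_instance

theorem IsA.st {ρ : Fin 15 → Fin 15} {κ : Fin 10 → Fin 10} (h : IsA ρ κ) {φ : Fin 15 → ZMod 2}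
    (hφ : St φ) : St (fun e => φ (ρ e)) := by
  intro x
  have h1 := hφ (κ x)
  change φ (ρ (pe x 0)) + φ (ρ (pe x 1)) + φ (ρ (pe x 2)) = 0
  rcases h x with ⟨a, b, c⟩ | ⟨a, b, c⟩ | ⟨a, b, c⟩ | ⟨a, b, c⟩ | ⟨a, b, c⟩ | ⟨a, b, c⟩ <;>
    rw [a, b, c, ← h1] <;> ring

/-- the homomorphism which belongs to an automorphism -/
def sg {ρ : Fin 15 → Fin 15} {κ : Fin 10 → Fin 10} (h : IsA ρ κ) :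
    (PF → ZMod 2) →+ (PF → ZMod 2) where
  toFun := fun F φ => F ⟨fun e => φ.1 (ρ e), h.st φ.2⟩
  map_zero' := rfl
  map_add' _ _ := rfl

theorem sg_hat {ρ : Fin 15 → Fin 15} {κ : Fin 10 → Fin 10} (h : IsA ρ κ) (e : Fin 15) :
    sg h (hat e) = hat (ρ e) := rfl

/-- automorphisms, action on the edges -/
def FT : Fin 10 → Fin 6 → Fin 15 → Fin 15 :=
  ![![![0, 1, 2, 3, 4, 5, 6, 7, 8, 9, 10, 11, 12, 13, 14],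
      ![0, 1, 7, 10, 5, 4, 6, 2, 12, 13, 3, 14, 8, 9, 11],
      ![4, 3, 2, 1, 0, 5, 9, 8, 7, 6, 13, 12, 11, 10, 14],
      ![4, 3, 8, 13, 5, 0, 9, 2, 11, 10, 1, 14, 7, 6, 12],
      ![5, 10, 7, 1, 0, 4, 13, 12, 2, 6, 9, 8, 14, 3, 11],
      ![5, 10, 12, 9, 4, 0, 13, 7, 14, 3, 1, 11, 2, 6, 8]],
    ![![1, 2, 3, 4, 0, 6, 7, 8, 9, 5, 11, 12, 13, 14, 10],
      ![1, 2, 8, 11, 6, 0, 7, 3, 13, 14, 4, 10, 9, 5, 12],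
      ![0, 4, 3, 2, 1, 6, 5, 9, 8, 7, 14, 13, 12, 11, 10],
      ![0, 4, 9, 14, 6, 1, 5, 3, 12, 11, 2, 10, 8, 7, 13],
      ![6, 11, 8, 2, 1, 0, 14, 13, 3, 7, 5, 9, 10, 4, 12],
      ![6, 11, 13, 5, 0, 1, 14, 8, 10, 4, 2, 12, 3, 7, 9]],
    ![![2, 3, 4, 0, 1, 7, 8, 9, 5, 6, 12, 13, 14, 10, 11],
      ![2, 3, 9, 12, 7, 1, 8, 4, 14, 10, 0, 11, 5, 6, 13],
      ![1, 0, 4, 3, 2, 7, 6, 5, 9, 8, 10, 14, 13, 12, 11],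
      ![1, 0, 5, 10, 7, 2, 6, 4, 13, 12, 3, 11, 9, 8, 14],
      ![7, 10, 13, 8, 2, 1, 12, 5, 11, 3, 0, 14, 4, 6, 9],
      ![7, 10, 5, 0, 1, 2, 12, 13, 4, 6, 8, 9, 11, 3, 14]],
    ![![3, 4, 0, 1, 2, 8, 9, 5, 6, 7, 13, 14, 10, 11, 12],
      ![3, 4, 5, 13, 8, 2, 9, 0, 10, 11, 1, 12, 6, 7, 14],
      ![2, 1, 0, 4, 3, 8, 7, 6, 5, 9, 11, 10, 14, 13, 12],
      ![2, 1, 6, 11, 8, 3, 7, 0, 14, 13, 4, 12, 5, 9, 10],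
      ![8, 13, 5, 4, 3, 2, 11, 10, 0, 9, 7, 6, 12, 1, 14],
      ![8, 13, 10, 7, 2, 3, 11, 5, 12, 1, 4, 14, 0, 9, 6]],
    ![![4, 0, 1, 2, 3, 9, 5, 6, 7, 8, 14, 10, 11, 12, 13],
      ![4, 0, 6, 14, 9, 3, 5, 1, 11, 12, 2, 13, 7, 8, 10],
      ![3, 2, 1, 0, 4, 9, 8, 7, 6, 5, 12, 11, 10, 14, 13],
      ![3, 2, 7, 12, 9, 4, 8, 1, 10, 14, 0, 13, 6, 5, 11],
      ![9, 14, 6, 0, 4, 3, 12, 11, 1, 5, 8, 7, 13, 2, 10],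
      ![9, 14, 11, 8, 3, 4, 12, 6, 13, 2, 0, 10, 1, 5, 7]],
    ![![10, 7, 2, 8, 13, 5, 12, 1, 3, 11, 0, 9, 6, 4, 14],
      ![10, 7, 1, 0, 5, 13, 12, 2, 6, 4, 8, 14, 3, 11, 9],
      ![13, 8, 2, 7, 10, 5, 11, 3, 1, 12, 4, 6, 9, 0, 14],
      ![13, 8, 3, 4, 5, 10, 11, 2, 9, 0, 7, 14, 1, 12, 6],
      ![5, 0, 1, 7, 10, 13, 4, 6, 2, 12, 11, 3, 14, 8, 9],
      ![5, 0, 6, 11, 13, 10, 4, 1, 14, 8, 7, 9, 2, 12, 3]],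
    ![![11, 8, 3, 9, 14, 6, 13, 2, 4, 12, 1, 5, 7, 0, 10],
      ![11, 8, 2, 1, 6, 14, 13, 3, 7, 0, 9, 10, 4, 12, 5],
      ![14, 9, 3, 8, 11, 6, 12, 4, 2, 13, 0, 7, 5, 1, 10],
      ![14, 9, 4, 0, 6, 11, 12, 3, 5, 1, 8, 10, 2, 13, 7],
      ![6, 0, 5, 13, 11, 14, 1, 4, 10, 8, 9, 7, 3, 12, 2],
      ![6, 0, 4, 9, 14, 11, 1, 5, 3, 12, 13, 2, 10, 8, 7]],
    ![![12, 9, 4, 5, 10, 7, 14, 3, 0, 13, 2, 6, 8, 1, 11],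
      ![12, 9, 3, 2, 7, 10, 14, 4, 8, 1, 5, 11, 0, 13, 6],
      ![10, 5, 4, 9, 12, 7, 13, 0, 3, 14, 1, 8, 6, 2, 11],
      ![10, 5, 0, 1, 7, 12, 13, 4, 6, 2, 9, 11, 3, 14, 8],
      ![7, 1, 6, 14, 12, 10, 2, 0, 11, 9, 5, 8, 4, 13, 3],
      ![7, 1, 0, 5, 10, 12, 2, 6, 4, 13, 14, 3, 11, 9, 8]],
    ![![13, 5, 0, 6, 11, 8, 10, 4, 1, 14, 3, 7, 9, 2, 12],
      ![13, 5, 4, 3, 8, 11, 10, 0, 9, 2, 6, 12, 1, 14, 7],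
      ![11, 6, 0, 5, 13, 8, 14, 1, 4, 10, 2, 9, 7, 3, 12],
      ![11, 6, 1, 2, 8, 13, 14, 0, 7, 3, 5, 12, 4, 10, 9],
      ![8, 2, 7, 10, 13, 11, 3, 1, 12, 5, 6, 9, 0, 14, 4],
      ![8, 2, 1, 6, 11, 13, 3, 7, 0, 14, 10, 4, 12, 5, 9]],
    ![![14, 6, 1, 7, 12, 9, 11, 0, 2, 10, 4, 8, 5, 3, 13],
      ![14, 6, 0, 4, 9, 12, 11, 1, 5, 3, 7, 13, 2, 10, 8],
      ![12, 7, 1, 6, 14, 9, 10, 2, 0, 11, 3, 5, 8, 4, 13],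
      ![12, 7, 2, 3, 9, 14, 10, 1, 8, 4, 6, 13, 0, 11, 5],
      ![9, 4, 0, 6, 14, 12, 3, 5, 1, 11, 10, 2, 13, 7, 8],
      ![9, 4, 5, 10, 12, 14, 3, 0, 13, 7, 6, 8, 1, 11, 2]]]

/-- automorphisms, action on the vertices -/
def FK : Fin 10 → Fin 6 → Fin 10 → Fin 10 :=
  ![![![0, 1, 2, 3, 4, 5, 6, 7, 8, 9],
      ![0, 1, 2, 7, 5, 4, 6, 3, 9, 8],
      ![0, 4, 3, 2, 1, 5, 9, 8, 7, 6],
      ![0, 4, 3, 8, 5, 1, 9, 2, 6, 7],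
      ![0, 5, 7, 2, 1, 4, 8, 9, 3, 6],
      ![0, 5, 7, 9, 4, 1, 8, 2, 6, 3]],
    ![![1, 2, 3, 4, 0, 6, 7, 8, 9, 5],
      ![1, 2, 3, 8, 6, 0, 7, 4, 5, 9],
      ![1, 0, 4, 3, 2, 6, 5, 9, 8, 7],
      ![1, 0, 4, 9, 6, 2, 5, 3, 7, 8],
      ![1, 6, 8, 3, 2, 0, 9, 5, 4, 7],
      ![1, 6, 8, 5, 0, 2, 9, 3, 7, 4]],
    ![![2, 3, 4, 0, 1, 7, 8, 9, 5, 6],
      ![2, 3, 4, 9, 7, 1, 8, 0, 6, 5],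
      ![2, 1, 0, 4, 3, 7, 6, 5, 9, 8],
      ![2, 1, 0, 5, 7, 3, 6, 4, 8, 9],
      ![2, 7, 5, 8, 3, 1, 9, 0, 6, 4],
      ![2, 7, 5, 0, 1, 3, 9, 8, 4, 6]],
    ![![3, 4, 0, 1, 2, 8, 9, 5, 6, 7],
      ![3, 4, 0, 5, 8, 2, 9, 1, 7, 6],
      ![3, 2, 1, 0, 4, 8, 7, 6, 5, 9],
      ![3, 2, 1, 6, 8, 4, 7, 0, 9, 5],
      ![3, 8, 5, 0, 4, 2, 6, 7, 1, 9],
      ![3, 8, 5, 7, 2, 4, 6, 0, 9, 1]],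
    ![![4, 0, 1, 2, 3, 9, 5, 6, 7, 8],
      ![4, 0, 1, 6, 9, 3, 5, 2, 8, 7],
      ![4, 3, 2, 1, 0, 9, 8, 7, 6, 5],
      ![4, 3, 2, 7, 9, 0, 8, 1, 5, 6],
      ![4, 9, 6, 1, 0, 3, 7, 8, 2, 5],
      ![4, 9, 6, 8, 3, 0, 7, 1, 5, 2]],
    ![![5, 7, 2, 3, 8, 0, 9, 1, 4, 6],
      ![5, 7, 2, 1, 0, 8, 9, 3, 6, 4],
      ![5, 8, 3, 2, 7, 0, 6, 4, 1, 9],
      ![5, 8, 3, 4, 0, 7, 6, 2, 9, 1],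
      ![5, 0, 1, 2, 7, 8, 4, 6, 3, 9],
      ![5, 0, 1, 6, 8, 7, 4, 2, 9, 3]],
    ![![6, 8, 3, 4, 9, 1, 5, 2, 0, 7],
      ![6, 8, 3, 2, 1, 9, 5, 4, 7, 0],
      ![6, 9, 4, 3, 8, 1, 7, 0, 2, 5],
      ![6, 9, 4, 0, 1, 8, 7, 3, 5, 2],
      ![6, 1, 0, 5, 8, 9, 2, 4, 7, 3],
      ![6, 1, 0, 4, 9, 8, 2, 5, 3, 7]],
    ![![7, 9, 4, 0, 5, 2, 6, 3, 1, 8],
      ![7, 9, 4, 3, 2, 5, 6, 0, 8, 1],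
      ![7, 5, 0, 4, 9, 2, 8, 1, 3, 6],
      ![7, 5, 0, 1, 2, 9, 8, 4, 6, 3],
      ![7, 2, 1, 6, 9, 5, 3, 0, 8, 4],
      ![7, 2, 1, 0, 5, 9, 3, 6, 4, 8]],
    ![![8, 5, 0, 1, 6, 3, 7, 4, 2, 9],
      ![8, 5, 0, 4, 3, 6, 7, 1, 9, 2],
      ![8, 6, 1, 0, 5, 3, 9, 2, 4, 7],
      ![8, 6, 1, 2, 3, 5, 9, 0, 7, 4],
      ![8, 3, 2, 7, 5, 6, 4, 1, 9, 0],
      ![8, 3, 2, 1, 6, 5, 4, 7, 0, 9]],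
    ![![9, 6, 1, 2, 7, 4, 8, 0, 3, 5],
      ![9, 6, 1, 0, 4, 7, 8, 2, 5, 3],
      ![9, 7, 2, 1, 6, 4, 5, 3, 0, 8],
      ![9, 7, 2, 3, 4, 6, 5, 1, 8, 0],
      ![9, 4, 0, 1, 6, 7, 3, 5, 2, 8],
      ![9, 4, 0, 5, 7, 6, 3, 1, 8, 2]]]

/-- inverse automorphisms, action on the edges -/
def IT : Fin 10 → Fin 6 → Fin 15 → Fin 15 :=
  ![![![0, 1, 2, 3, 4, 5, 6, 7, 8, 9, 10, 11, 12, 13, 14],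
      ![0, 1, 7, 10, 5, 4, 6, 2, 12, 13, 3, 14, 8, 9, 11],
      ![4, 3, 2, 1, 0, 5, 9, 8, 7, 6, 13, 12, 11, 10, 14],
      ![5, 10, 7, 1, 0, 4, 13, 12, 2, 6, 9, 8, 14, 3, 11],
      ![4, 3, 8, 13, 5, 0, 9, 2, 11, 10, 1, 14, 7, 6, 12],
      ![5, 10, 12, 9, 4, 0, 13, 7, 14, 3, 1, 11, 2, 6, 8]],
    ![![4, 0, 1, 2, 3, 9, 5, 6, 7, 8, 14, 10, 11, 12, 13],
      ![5, 0, 1, 7, 10, 13, 4, 6, 2, 12, 11, 3, 14, 8, 9],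
      ![0, 4, 3, 2, 1, 6, 5, 9, 8, 7, 14, 13, 12, 11, 10],
      ![0, 5, 10, 7, 1, 6, 4, 13, 12, 2, 11, 9, 8, 14, 3],
      ![5, 4, 3, 8, 13, 10, 0, 9, 2, 11, 12, 1, 14, 7, 6],
      ![4, 5, 10, 12, 9, 3, 0, 13, 7, 14, 8, 1, 11, 2, 6]],
    ![![3, 4, 0, 1, 2, 8, 9, 5, 6, 7, 13, 14, 10, 11, 12],
      ![10, 5, 0, 1, 7, 12, 13, 4, 6, 2, 9, 11, 3, 14, 8],
      ![1, 0, 4, 3, 2, 7, 6, 5, 9, 8, 10, 14, 13, 12, 11],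
      ![1, 0, 5, 10, 7, 2, 6, 4, 13, 12, 3, 11, 9, 8, 14],
      ![10, 5, 4, 9, 12, 7, 13, 0, 3, 14, 1, 8, 6, 2, 11],
      ![3, 4, 5, 13, 8, 2, 9, 0, 10, 11, 1, 12, 6, 7, 14]],
    ![![2, 3, 4, 0, 1, 7, 8, 9, 5, 6, 12, 13, 14, 10, 11],
      ![7, 10, 5, 0, 1, 2, 12, 13, 4, 6, 8, 9, 11, 3, 14],
      ![2, 1, 0, 4, 3, 8, 7, 6, 5, 9, 11, 10, 14, 13, 12],
      ![7, 1, 0, 5, 10, 12, 2, 6, 4, 13, 14, 3, 11, 9, 8],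
      ![8, 13, 5, 4, 3, 2, 11, 10, 0, 9, 7, 6, 12, 1, 14],
      ![12, 9, 4, 5, 10, 7, 14, 3, 0, 13, 2, 6, 8, 1, 11]],
    ![![1, 2, 3, 4, 0, 6, 7, 8, 9, 5, 11, 12, 13, 14, 10],
      ![1, 7, 10, 5, 0, 6, 2, 12, 13, 4, 14, 8, 9, 11, 3],
      ![3, 2, 1, 0, 4, 9, 8, 7, 6, 5, 12, 11, 10, 14, 13],
      ![10, 7, 1, 0, 5, 13, 12, 2, 6, 4, 8, 14, 3, 11, 9],
      ![3, 8, 13, 5, 4, 9, 2, 11, 10, 0, 14, 7, 6, 12, 1],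
      ![10, 12, 9, 4, 5, 13, 7, 14, 3, 0, 11, 2, 6, 8, 1]],
    ![![10, 7, 2, 8, 13, 5, 12, 1, 3, 11, 0, 9, 6, 4, 14],
      ![3, 2, 7, 12, 9, 4, 8, 1, 10, 14, 0, 13, 6, 5, 11],
      ![13, 8, 2, 7, 10, 5, 11, 3, 1, 12, 4, 6, 9, 0, 14],
      ![9, 12, 7, 2, 3, 4, 14, 10, 1, 8, 5, 6, 13, 0, 11],
      ![1, 2, 8, 11, 6, 0, 7, 3, 13, 14, 4, 10, 9, 5, 12],
      ![1, 7, 12, 14, 6, 0, 2, 10, 9, 11, 5, 3, 13, 4, 8]],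
    ![![13, 10, 7, 2, 8, 11, 5, 12, 1, 3, 14, 0, 9, 6, 4],
      ![9, 3, 2, 7, 12, 14, 4, 8, 1, 10, 11, 0, 13, 6, 5],
      ![10, 13, 8, 2, 7, 12, 5, 11, 3, 1, 14, 4, 6, 9, 0],
      ![3, 9, 12, 7, 2, 8, 4, 14, 10, 1, 11, 5, 6, 13, 0],
      ![1, 6, 14, 12, 7, 2, 0, 11, 9, 10, 8, 4, 13, 3, 5],
      ![1, 6, 11, 8, 2, 7, 0, 14, 13, 3, 12, 5, 9, 10, 4]],
    ![![8, 13, 10, 7, 2, 3, 11, 5, 12, 1, 4, 14, 0, 9, 6],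
      ![12, 9, 3, 2, 7, 10, 14, 4, 8, 1, 5, 11, 0, 13, 6],
      ![7, 10, 13, 8, 2, 1, 12, 5, 11, 3, 0, 14, 4, 6, 9],
      ![2, 3, 9, 12, 7, 1, 8, 4, 14, 10, 0, 11, 5, 6, 13],
      ![7, 1, 6, 14, 12, 10, 2, 0, 11, 9, 5, 8, 4, 13, 3],
      ![2, 1, 6, 11, 8, 3, 7, 0, 14, 13, 4, 12, 5, 9, 10]],
    ![![2, 8, 13, 10, 7, 1, 3, 11, 5, 12, 6, 4, 14, 0, 9],
      ![7, 12, 9, 3, 2, 1, 10, 14, 4, 8, 6, 5, 11, 0, 13],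
      ![2, 7, 10, 13, 8, 3, 1, 12, 5, 11, 9, 0, 14, 4, 6],
      ![7, 2, 3, 9, 12, 10, 1, 8, 4, 14, 13, 0, 11, 5, 6],
      ![12, 7, 1, 6, 14, 9, 10, 2, 0, 11, 3, 5, 8, 4, 13],
      ![8, 2, 1, 6, 11, 13, 3, 7, 0, 14, 10, 4, 12, 5, 9]],
    ![![7, 2, 8, 13, 10, 12, 1, 3, 11, 5, 9, 6, 4, 14, 0],
      ![2, 7, 12, 9, 3, 8, 1, 10, 14, 4, 13, 6, 5, 11, 0],
      ![8, 2, 7, 10, 13, 11, 3, 1, 12, 5, 6, 9, 0, 14, 4],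
      ![12, 7, 2, 3, 9, 14, 10, 1, 8, 4, 6, 13, 0, 11, 5],
      ![2, 8, 11, 6, 1, 7, 3, 13, 14, 0, 10, 9, 5, 12, 4],
      ![7, 12, 14, 6, 1, 2, 10, 9, 11, 0, 3, 13, 4, 8, 5]]]

/-- inverse automorphisms, action on the vertices -/
def IK : Fin 10 → Fin 6 → Fin 10 → Fin 10 :=
  ![![![0, 1, 2, 3, 4, 5, 6, 7, 8, 9],
      ![0, 1, 2, 7, 5, 4, 6, 3, 9, 8],
      ![0, 4, 3, 2, 1, 5, 9, 8, 7, 6],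
      ![0, 5, 7, 2, 1, 4, 8, 9, 3, 6],
      ![0, 4, 3, 8, 5, 1, 9, 2, 6, 7],
      ![0, 5, 7, 9, 4, 1, 8, 2, 6, 3]],
    ![![4, 0, 1, 2, 3, 9, 5, 6, 7, 8],
      ![5, 0, 1, 2, 7, 8, 4, 6, 3, 9],
      ![1, 0, 4, 3, 2, 6, 5, 9, 8, 7],
      ![1, 0, 5, 7, 2, 6, 4, 8, 9, 3],
      ![5, 0, 4, 3, 8, 7, 1, 9, 2, 6],
      ![4, 0, 5, 7, 9, 3, 1, 8, 2, 6]],
    ![![3, 4, 0, 1, 2, 8, 9, 5, 6, 7],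
      ![7, 5, 0, 1, 2, 9, 8, 4, 6, 3],
      ![2, 1, 0, 4, 3, 7, 6, 5, 9, 8],
      ![2, 1, 0, 5, 7, 3, 6, 4, 8, 9],
      ![7, 5, 0, 4, 9, 2, 8, 1, 3, 6],
      ![3, 4, 0, 5, 8, 2, 9, 1, 7, 6]],
    ![![2, 3, 4, 0, 1, 7, 8, 9, 5, 6],
      ![2, 7, 5, 0, 1, 3, 9, 8, 4, 6],
      ![3, 2, 1, 0, 4, 8, 7, 6, 5, 9],
      ![7, 2, 1, 0, 5, 9, 3, 6, 4, 8],
      ![3, 8, 5, 0, 4, 2, 6, 7, 1, 9],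
      ![7, 9, 4, 0, 5, 2, 6, 3, 1, 8]],
    ![![1, 2, 3, 4, 0, 6, 7, 8, 9, 5],
      ![1, 2, 7, 5, 0, 6, 3, 9, 8, 4],
      ![4, 3, 2, 1, 0, 9, 8, 7, 6, 5],
      ![5, 7, 2, 1, 0, 8, 9, 3, 6, 4],
      ![4, 3, 8, 5, 0, 9, 2, 6, 7, 1],
      ![5, 7, 9, 4, 0, 8, 2, 6, 3, 1]],
    ![![5, 7, 2, 3, 8, 0, 9, 1, 4, 6],
      ![4, 3, 2, 7, 9, 0, 8, 1, 5, 6],
      ![5, 8, 3, 2, 7, 0, 6, 4, 1, 9],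
      ![4, 9, 7, 2, 3, 0, 6, 5, 1, 8],
      ![1, 2, 3, 8, 6, 0, 7, 4, 5, 9],
      ![1, 2, 7, 9, 6, 0, 3, 5, 4, 8]],
    ![![8, 5, 7, 2, 3, 6, 0, 9, 1, 4],
      ![9, 4, 3, 2, 7, 6, 0, 8, 1, 5],
      ![7, 5, 8, 3, 2, 9, 0, 6, 4, 1],
      ![3, 4, 9, 7, 2, 8, 0, 6, 5, 1],
      ![2, 1, 6, 9, 7, 3, 0, 8, 4, 5],
      ![2, 1, 6, 8, 3, 7, 0, 9, 5, 4]],
    ![![3, 8, 5, 7, 2, 4, 6, 0, 9, 1],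
      ![7, 9, 4, 3, 2, 5, 6, 0, 8, 1],
      ![2, 7, 5, 8, 3, 1, 9, 0, 6, 4],
      ![2, 3, 4, 9, 7, 1, 8, 0, 6, 5],
      ![7, 2, 1, 6, 9, 5, 3, 0, 8, 4],
      ![3, 2, 1, 6, 8, 4, 7, 0, 9, 5]],
    ![![2, 3, 8, 5, 7, 1, 4, 6, 0, 9],
      ![2, 7, 9, 4, 3, 1, 5, 6, 0, 8],
      ![3, 2, 7, 5, 8, 4, 1, 9, 0, 6],
      ![7, 2, 3, 4, 9, 5, 1, 8, 0, 6],
      ![9, 7, 2, 1, 6, 4, 5, 3, 0, 8],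
      ![8, 3, 2, 1, 6, 5, 4, 7, 0, 9]],
    ![![7, 2, 3, 8, 5, 9, 1, 4, 6, 0],
      ![3, 2, 7, 9, 4, 8, 1, 5, 6, 0],
      ![8, 3, 2, 7, 5, 6, 4, 1, 9, 0],
      ![9, 7, 2, 3, 4, 6, 5, 1, 8, 0],
      ![2, 3, 8, 6, 1, 7, 4, 5, 9, 0],
      ![2, 7, 9, 6, 1, 3, 5, 4, 8, 0]]]

/-- the number of a pair of different indices -/
def qi : Fin 3 → Fin 3 → Fin 6 := ![![0, 0, 1], ![2, 0, 3], ![4, 5, 0]]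

/-- the edge between two vertices -/
def en : Fin 10 → Fin 10 → Fin 15 :=
  ![![0, 0, 0, 0, 4, 5, 0, 0, 0, 0],
    ![0, 0, 1, 0, 0, 0, 6, 0, 0, 0],
    ![0, 1, 0, 2, 0, 0, 0, 7, 0, 0],
    ![0, 0, 2, 0, 3, 0, 0, 0, 8, 0],
    ![4, 0, 0, 3, 0, 0, 0, 0, 0, 9],
    ![5, 0, 0, 0, 0, 0, 0, 10, 13, 0],
    ![0, 6, 0, 0, 0, 0, 0, 0, 11, 14],
    ![0, 0, 7, 0, 0, 10, 0, 0, 0, 12],
    ![0, 0, 0, 8, 0, 13, 11, 0, 0, 0],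
    ![0, 0, 0, 0, 9, 0, 14, 12, 0, 0]]

/-- a basis of the flows -/
def cyc : Fin 6 → Fin 15 → ZMod 2 :=
  ![![1, 1, 1, 1, 1, 0, 0, 0, 0, 0, 0, 0, 0, 0, 0],
    ![1, 1, 0, 0, 0, 1, 0, 1, 0, 0, 1, 0, 0, 0, 0],
    ![0, 1, 1, 0, 0, 0, 1, 0, 1, 0, 0, 1, 0, 0, 0],
    ![0, 0, 1, 1, 0, 0, 0, 1, 0, 1, 0, 0, 1, 0, 0],
    ![1, 1, 1, 0, 0, 1, 0, 0, 1, 0, 0, 0, 0, 1, 0],
    ![0, 1, 1, 1, 0, 0, 1, 0, 0, 1, 0, 0, 0, 0, 1]]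

theorem FT_ok : ∀ k q, IsA (FT k q) (FK k q) := by decide +kernel

theorem IT_ok : ∀ k q, IsA (IT k q) (IK k q) := by decide +kernel

theorem FT_map : ∀ (k : Fin 10) (i j : Fin 3), i ≠ j →
    FT k (qi i j) (pe 0 0) = pe k i ∧ FT k (qi i j) (pe 0 1) = pe k j := by decide +kernel

theorem IT_map : ∀ (k : Fin 10) (i j : Fin 3), i ≠ j →
    IT k (qi i j) (pe k i) = pe 0 0 ∧ IT k (qi i j) (pe k j) = pe 0 1 := by decide +kernel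

theorem cyc_st : ∀ i k, cyc i (pe k 0) + cyc i (pe k 1) + cyc i (pe k 2) = 0 := by decide +kernel

theorem cyc_ne : ∀ e, ∃ i, cyc i e ≠ 0 := by decide +kernel

theorem cyc_star : ∀ e1 e2 e3, (∀ i, cyc i e1 + cyc i e2 = cyc i e3) →
    ∃ (k : Fin 10) (i j : Fin 3), i ≠ j ∧ e1 = pe k i ∧ e2 = pe k j := by decide +kernel

theorem en_pe : ∀ (k : Fin 10), en k (nb k 0) = pe k 0 ∧ en k (nb k 1) = pe k 1 ∧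
    en k (nb k 2) = pe k 2 := by decide +kernel

theorem en_sym : ∀ k l, en k l = en l k := by decide +kernel

theorem star_of {e1 e2 e3 : Fin 15} (h : hat e1 + hat e2 = hat e3) :
    ∃ (k : Fin 10) (i j : Fin 3), i ≠ j ∧ e1 = pe k i ∧ e2 = pe k j :=
  cyc_star e1 e2 e3 fun i => congrFun h (⟨cyc i, cyc_st i⟩ : PF)

theorem algAp : Alg Ap where
  two x := by
    funext φ
    exact CharTwo.add_self_eq_zero _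
  zero := by
    rintro ⟨e, he⟩
    obtain ⟨i, hi⟩ := cyc_ne e
    exact hi (congrFun he (⟨cyc i, cyc_st i⟩ : PF)).symm
  hom := by
    rintro a b a' b' ⟨e1, rfl⟩ ⟨e2, rfl⟩ ⟨e3, h3⟩ ⟨f1, rfl⟩ ⟨f2, rfl⟩ ⟨f3, h3'⟩
    obtain ⟨k, i, j, hij, rfl, rfl⟩ := star_of h3
    obtain ⟨k', i', j', hij', rfl, rfl⟩ := star_of h3'
    refine ⟨(sg (FT_ok k' (qi i' j'))).comp (sg (IT_ok k (qi i j))), ?_, ?_, ?_⟩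
    · rintro _ ⟨e, rfl⟩
      exact ⟨FT k' (qi i' j') (IT k (qi i j) e), rfl⟩
    · change hat (FT k' (qi i' j') (IT k (qi i j) (pe k i))) = hat (pe k' i')
      rw [(IT_map k i j hij).1, (FT_map k' i' j' hij').1]
    · change hat (FT k' (qi i' j') (IT k (qi i j) (pe k j))) = hat (pe k' j')
      rw [(IT_map k i j hij).2, (FT_map k' i' j' hij').2]

theorem petAp : Pet Ap (fun k l => hat (en k l)) where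
  sym k l := by
    change hat (en k l) = hat (en l k)
    rw [en_sym]
  al k l := ⟨en k l, rfl⟩
  sum k := by
    change hat (en k (nb k 0)) + hat (en k (nb k 1)) + hat (en k (nb k 2)) = 0
    rw [(en_pe k).1, (en_pe k).2.1, (en_pe k).2.2]
    funext φ
    exact φ.2 k

/-- the embedding of the group of order four -/
def embAp : F →+ (PF → ZMod 2) where
  toFun x := fun φ => x.1 * φ.1 (pe 0 0) + x.2 * φ.1 (pe 0 1)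
  map_zero' := by
    funext φ
    change (0 : ZMod 2) * _ + 0 * _ = 0
    ring
  map_add' x y := by
    funext φ
    change (x.1 + y.1) * φ.1 (pe 0 0) + (x.2 + y.2) * φ.1 (pe 0 1) =
      (x.1 * φ.1 (pe 0 0) + x.2 * φ.1 (pe 0 1)) + (y.1 * φ.1 (pe 0 0) + y.2 * φ.1 (pe 0 1))
    ring

theorem emb_Ap : ∀ x : F, x ≠ 0 → Ap (embAp x) := by
  have h01 : ∀ a : ZMod 2, a = 0 ∨ a = 1 := by decide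
  rintro ⟨a, b⟩ hne
  rcases h01 a with rfl | rfl <;> rcases h01 b with rfl | rfl
  · exact absurd rfl hne
  · refine ⟨pe 0 1, ?_⟩
    funext φ
    change (0 : ZMod 2) * φ.1 (pe 0 0) + 1 * φ.1 (pe 0 1) = φ.1 (pe 0 1)
    ring
  · refine ⟨pe 0 0, ?_⟩
    funext φ
    change (1 : ZMod 2) * φ.1 (pe 0 0) + 0 * φ.1 (pe 0 1) = φ.1 (pe 0 0)
    ring
  · refine ⟨pe 0 2, ?_⟩
    funext φ
    change (1 : ZMod 2) * φ.1 (pe 0 0) + 1 * φ.1 (pe 0 1) = φ.1 (pe 0 2)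
    have h := φ.2 0
    have h2 : ∀ x y z : ZMod 2, x + y + z = 0 → 1 * x + 1 * y = z := by decide
    exact h2 _ _ _ h

end Pool.Agent.R769.MN
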