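import Pool.Agent.R769.MN.Alg
import Pool.Agent.R769.MN.PetA

set_option autoImplicit false
set_option linter.unusedSectionVars false

/-!
# Cycle-continuous maps to the Petersen graph for graphs with matching number at most eight
-/

namespace Pool.Agent.R769.MN

open Finset Pool.Agent.TH362.TF Pool.Agent.R890.FF
open Pool.Agent.TH676.A (Alg Ex2 FlowOn bd)
open Pool.Agent.R926.SC (pe pet_flow)
open Pool.Agent.H160R2.CC Pool.Agent.H160R2.CC.MGraph

/-- a flow whose values are edges of the Petersen graph is a cycle-continuous map -/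
theorem succ_of_flowOn (G : MGraph) (h : FlowOn Ap G.src G.tgt ∅ ∅) : Succ G petersen := by
  obtain ⟨f, hf, -, hA⟩ := h
  have h1 : ∀ e, ∃ c, f e = hat c := fun e => hA e (notMem_empty e) (notMem_empty e)
  choose c hc using h1
  refine succ_iff.2 ⟨c, fun φ hφ v => ?_⟩
  have h2 := congrFun (hf v) (⟨φ, fun k => pet_flow φ hφ k⟩ : PF)
  refine Eq.trans ?_ h2
  unfold MGraph.bd Pool.Agent.TH676.A.bd MGraph.inc
  rw [Finset.sum_apply]
  refine Finset.sum_congr rfl fun e _ => ?_
  rw [Pi.add_apply, hc e]
  simp only [Function.comp]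
  have h3 : ∀ p : Prop, [Decidable p] → (if p then hat (c e) else 0) (⟨φ, fun k => pet_flow φ hφ k⟩ : PF) =
      if p then φ (c e) else 0 := by
    intro p _
    split_ifs
    · rfl
    · rfl
  rw [h3, h3]
  split_ifs <;> ring

/-- **Petersen colourings, matching number at most eight** -/
theorem succ_match (G : MGraph) (hB : ¬ G.HasCutEdge)
    (hM : ∀ M : Finset G.E, IsMat G.src G.tgt M → M.card ≤ 8) : Succ G petersen := by
  classical
  refine succ_of_flowOn G (alg_match algAp petAp ⟨embAp, emb_Ap⟩ G.src G.tgt ?_ hM)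
  apply n1_of_br
  intro Y _ hY
  rw [sdiff_empty] at hY
  obtain ⟨e, he⟩ := card_eq_one.mp hY
  apply hB
  refine ⟨Y, e, fun e' => ?_⟩
  rw [← Pool.Agent.TH676.A.mem_crs, he, mem_singleton]

end Pool.Agent.R769.MN
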